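import Pool.Agent.Helper79.GU.St1
import Pool.Agent.Helper79.GS.St6

/-! Project GU, module RPT (written by helper21). -/

set_option autoImplicit false

namespace Pool.Agent.Helper21.GU

open Pool.Agent.Helper79.GU Pool.Agent.Helper79.GT Pool.Agent.Helper79.GS Pool.Agent.Helper73.DC
open Pool.Agent.Helper19.SK

section Rel

variable {X : Type} (r : X → X → Prop)

/-- paths with exactly `m` steps -/
private def St (r : X → X → Prop) : ℕ → X → X → Prop
  | 0, a, b => a = b
  | m + 1, a, b => ∃ c, St r m a c ∧ r c b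

private theorem St_add (m n : ℕ) (a b : X) : St r (m + n) a b ↔ ∃ c, St r m a c ∧ St r n c b := by
  induction n generalizing b with
  | zero =>
    constructor
    · intro h
      exact ⟨b, h, rfl⟩
    · rintro ⟨c, h1, h2⟩
      have h3 : c = b := h2
      rw [h3] at h1
      exact h1
  | succ n ih =>
    constructor
    · rintro ⟨d, h1, h2⟩
      obtain ⟨c, h3, h4⟩ := (ih d).1 h1
      exact ⟨c, h3, d, h4, h2⟩
    · rintro ⟨c, h1, d, h2, h3⟩
      exact ⟨d, (ih d).2 ⟨c, h1, h2⟩, h3⟩

private theorem St_rtg {m : ℕ} {a b : X} (h : St r m a b) : Relation.ReflTransGen r a b := by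
  induction m generalizing b with
  | zero =>
    have h3 : a = b := h
    rw [h3]
  | succ m ih =>
    obtain ⟨c, h1, h2⟩ := h
    exact (ih h1).tail h2

private theorem rtg_St {a b : X} (h : Relation.ReflTransGen r a b) : ∃ m, St r m a b := by
  induction h with
  | refl => exact ⟨0, rfl⟩
  | tail _ h2 ih =>
    obtain ⟨m, hm⟩ := ih
    exact ⟨m + 1, _, hm, h2⟩

/-- a shortest path has fewer steps than the number of points -/
private theorem St_short {M : ℕ} (f : X → ℕ) (hf : ∀ x, f x < M) (hi : ∀ x y, f x = f y → x = y)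
    {a b : X} (h : Relation.ReflTransGen r a b) : ∃ m < M, St r m a b := by
  classical
  have h1 := rtg_St r h
  refine ⟨Nat.find h1, ?_, Nat.find_spec h1⟩
  set m := Nat.find h1 with hm
  have h2 : ∀ j : Fin (m + 1), ∃ x, St r j.val a x ∧ St r (m - j.val) x b := by
    intro j
    apply (St_add r _ _ a b).1
    have h3 : j.val + (m - j.val) = m := by have := j.2; omega
    rw [h3]
    exact Nat.find_spec h1
  choose x hx1 hx2 using h2
  have h4 : Function.Injective (fun j : Fin (m + 1) => (⟨f (x j), hf _⟩ : Fin M)) := by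
    intro i j hij
    have h5 : x i = x j := hi _ _ (congrArg Fin.val hij)
    by_contra hne
    have h6 : ∀ i j : Fin (m + 1), x i = x j → i.val < j.val → False := by
      intro i j hxx hlt
      have h7 : St r (i.val + (m - j.val)) a b := (St_add r _ _ a b).2 ⟨x i, hx1 i, by
        rw [hxx]
        exact hx2 j⟩
      have h8 := Nat.find_min' h1 h7
      have := j.2
      omega
    rcases Nat.lt_trichotomy i.val j.val with h9 | h9 | h9
    · exact h6 i j h5 h9
    · exact hne (Fin.ext h9)
    · exact h6 j i h5.symm h9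
  have h10 := Fintype.card_le_of_injective _ h4
  rw [Fintype.card_fin, Fintype.card_fin] at h10
  omega

/-- paths by halving -/
private def Pt (r : X → X → Prop) : ℕ → X → X → Prop
  | 0, a, b => a = b ∨ r a b
  | k + 1, a, b => ∃ w, Pt r k a w ∧ Pt r k w b

private theorem Pt_rtg {k : ℕ} {a b : X} (h : Pt r k a b) : Relation.ReflTransGen r a b := by
  induction k generalizing a b with
  | zero =>
    rcases h with h | h
    · rw [h]
    · exact Relation.ReflTransGen.single h
  | succ k ih =>
    obtain ⟨w, h1, h2⟩ := h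
    exact (ih h1).trans (ih h2)

private theorem St_Pt {k m : ℕ} (hm : m ≤ 2 ^ k) {a b : X} (h : St r m a b) : Pt r k a b := by
  induction k generalizing m a b with
  | zero =>
    rw [pow_zero] at hm
    rcases m with _ | m
    · exact Or.inl h
    · have h1 : m = 0 := by omega
      subst h1
      obtain ⟨c, h2, h3⟩ := h
      have h4 : a = c := h2
      rw [h4]
      exact Or.inr h3
  | succ k ih =>
    have h1 : ∃ m1 m2, m1 ≤ 2 ^ k ∧ m2 ≤ 2 ^ k ∧ m = m1 + m2 := by
      rw [pow_succ] at hm
      by_cases h2 : m ≤ 2 ^ k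
      · exact ⟨m, 0, h2, Nat.zero_le _, rfl⟩
      · exact ⟨2 ^ k, m - 2 ^ k, le_rfl, by omega, by omega⟩
    obtain ⟨m1, m2, h3, h4, rfl⟩ := h1
    obtain ⟨c, h5, h6⟩ := (St_add r _ _ a b).1 h
    exact ⟨c, ih h3 h5, ih h4 h6⟩

end Rel

theorem hRPT (hCOD : Pool.Agent.Helper79.GS.StCOD) (hPLY : Pool.Agent.Helper79.GS.StPLY) :
    Pool.Agent.Helper79.GU.StRPT := by
  intro N n hN c P Q
  have hpw : pw N 3 (n * n) = 3 ^ (n * n) := by
    unfold pw
    omega
  obtain ⟨hc1, hc2, hc3, _⟩ := hCOD n
  have hbn : 1 - bn c = bn (!c) := by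
    unfold bn
    cases c <;> simp
  set A := goG (grid n) false with hA
  set r : Pos (Fin n × Fin n) → Pos (Fin n × Fin n) → Prop :=
    fun b b' => A.mv (!c) b b' ∨ (A.mv c b b' ∧ A.mv (!c) b' b) with hr
  have hst : ∀ P Q : Pos (Fin n × Fin n), stN N n (bn c) (codeB P) (codeB Q) ↔ r P Q := by
    intro P Q
    unfold Pool.Agent.Helper79.GU.stN
    rw [hbn, hPLY N n hN (!c) P Q, hPLY N n hN c P Q, hPLY N n hN (!c) Q P]
    exact Iff.rfl
  have hpt : ∀ (k : ℕ) (P Q : Pos (Fin n × Fin n)),
      pthN N n (bn c) k (codeB P) (codeB Q) ↔ Pt r k P Q := by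
    intro k
    induction k with
    | zero =>
      intro P Q
      unfold pthN Pt
      rw [hst]
      constructor
      · rintro (h | h)
        · exact Or.inl (hc2 _ _ h)
        · exact Or.inr h
      · rintro (h | h)
        · exact Or.inl (by rw [h])
        · exact Or.inr h
    | succ k ih =>
      intro P Q
      unfold pthN Pt
      rw [hpw]
      constructor
      · rintro ⟨w, hw, h1, h2⟩
        obtain ⟨W, rfl⟩ := hc3 w hw
        exact ⟨W, (ih _ _).1 h1, (ih _ _).1 h2⟩
      · rintro ⟨W, h1, h2⟩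
        exact ⟨codeB W, (hc1 W).1, (ih _ _).2 h1, (ih _ _).2 h2⟩
  rw [hpt]
  constructor
  · intro h
    exact Pt_rtg r h
  · intro h
    obtain ⟨m, hm, h1⟩ := St_short r (M := 3 ^ (n * n)) codeB (fun x => (hc1 x).1) hc2 h
    refine St_Pt r ?_ h1
    have h2 : 3 ^ (n * n) ≤ 2 ^ (2 * (n * n)) := by
      have h3 : (2:ℕ) ^ (2 * (n * n)) = (2 ^ 2) ^ (n * n) := pow_mul 2 2 (n * n)
      rw [h3]
      exact Nat.pow_le_pow_left (by norm_num) _
    omega

end Pool.Agent.Helper21.GU
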